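import Mathlib

namespace Pool.Agent.H.MP_1e7c77_al

open Real

theorem lift {a b c : ℝ} (hc : 0 < c) (h : a ^ 2 + b * c = -1) :
    ∃ s : ℝ → ℝ, Continuous s ∧ (∀ θ, θ < s θ ∧ s θ < θ + π) ∧
      ∀ θ, ∃ r, 0 < r ∧ r * cos (s θ) = a * cos θ + b * sin θ ∧
        r * sin (s θ) = c * cos θ - a * sin θ := by
  set W : ℝ → ℂ := fun θ =>
    (((a * cos θ + b * sin θ) * cos θ + (c * cos θ - a * sin θ) * sin θ : ℝ) : ℂ) +
    (((c * cos θ - a * sin θ) * cos θ - (a * cos θ + b * sin θ) * sin θ : ℝ) : ℂ) * Complex.I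
    with hW
  have hre : ∀ θ, (W θ).re =
      (a * cos θ + b * sin θ) * cos θ + (c * cos θ - a * sin θ) * sin θ := fun θ => by
    simp only [hW, Complex.add_re, Complex.ofReal_re, Complex.mul_re, Complex.I_re,
      Complex.ofReal_im, Complex.I_im]; ring
  have him : ∀ θ, (W θ).im =
      (c * cos θ - a * sin θ) * cos θ - (a * cos θ + b * sin θ) * sin θ := fun θ => by
    simp only [hW, Complex.add_im, Complex.ofReal_re, Complex.mul_im, Complex.I_re,
      Complex.ofReal_im, Complex.I_im]; ring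
  have hpos : ∀ θ, 0 < (W θ).im := by
    intro θ
    rw [him]
    have e := cos_sq_add_sin_sq θ
    have e2 : c * ((c * cos θ - a * sin θ) * cos θ - (a * cos θ + b * sin θ) * sin θ) =
        (c * cos θ - a * sin θ) ^ 2 + sin θ ^ 2 := by linear_combination (-(sin θ) ^ 2) * h
    have e3 : 0 < (c * cos θ - a * sin θ) ^ 2 + sin θ ^ 2 := by
      by_cases hs : sin θ = 0
      · rw [hs] at e ⊢
        have : cos θ ≠ 0 := fun h0 => by rw [h0] at e; norm_num at e
        have : 0 < (c * cos θ) ^ 2 := by positivity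
        simpa using this
      · positivity
    rw [← e2] at e3
    exact (mul_pos_iff_of_pos_left hc).mp e3
  have hcW : Continuous W := by
    simp only [hW]
    fun_prop
  refine ⟨fun θ => θ + Complex.arg (W θ), ?_, fun θ => ⟨?_, ?_⟩, fun θ => ⟨‖W θ‖, ?_, ?_, ?_⟩⟩
  · refine continuous_id.add (continuous_iff_continuousAt.mpr fun θ => ?_)
    exact (Complex.continuousAt_arg (Or.inr (hpos θ).ne')).comp hcW.continuousAt
  · have h1 := Complex.arg_nonneg_iff.mpr (hpos θ).le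
    have h2 : Complex.arg (W θ) ≠ 0 := fun h0 => (hpos θ).ne' (Complex.arg_eq_zero_iff.mp h0).2
    have := lt_of_le_of_ne h1 h2.symm
    linarith
  · have := Complex.arg_lt_pi_iff.mpr (Or.inr (hpos θ).ne')
    linarith
  · exact norm_pos_iff.mpr fun h0 => (hpos θ).ne' (by rw [h0]; rfl)
  · have e1 := Complex.norm_mul_cos_arg (W θ)
    have e2 := Complex.norm_mul_sin_arg (W θ)
    rw [hre] at e1
    rw [him] at e2
    rw [cos_add]
    linear_combination cos θ * e1 - sin θ * e2 +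
      (a * cos θ + b * sin θ) * cos_sq_add_sin_sq θ
  · have e1 := Complex.norm_mul_cos_arg (W θ)
    have e2 := Complex.norm_mul_sin_arg (W θ)
    rw [hre] at e1
    rw [him] at e2
    rw [sin_add]
    linear_combination sin θ * e1 + cos θ * e2 +
      (c * cos θ - a * sin θ) * cos_sq_add_sin_sq θ

theorem ang {r u v : ℝ} (hr : 0 < r) (h1 : r * cos u = cos v) (h2 : r * sin u = sin v)
    (h3 : -(2 * π) < u - v) (h4 : u - v < 2 * π) : u = v := by
  have e : r ^ 2 = 1 := by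
    linear_combination (r * cos u + cos v) * h1 + (r * sin u + sin v) * h2 +
      cos_sq_add_sin_sq v - r ^ 2 * cos_sq_add_sin_sq u
  have e1 : r = 1 := by nlinarith
  rw [e1, one_mul] at h1 h2
  have : cos (u - v) = 1 := by
    rw [cos_sub, h1, h2]; linear_combination cos_sq_add_sin_sq v
  exact sub_eq_zero.mp ((cos_eq_one_iff_of_lt_of_lt h3 h4).mp this)

theorem lift2 {a b c : ℝ} (hc : 0 < c) (h : a ^ 2 + b * c = -1) :
    ∃ s : ℝ → ℝ, StrictMono s ∧ (∀ θ, s (s θ) = θ + π) ∧ (∀ θ, θ < s θ ∧ s θ < θ + π) ∧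
      ∀ θ, ∃ r, 0 < r ∧ r * cos (s θ) = a * cos θ + b * sin θ ∧
        r * sin (s θ) = c * cos θ - a * sin θ := by
  obtain ⟨s, h1, h2, h3⟩ := lift hc h
  have h4 : ∀ θ, s (s θ) = θ + π := by
    intro θ
    obtain ⟨r1, p1, a1, b1⟩ := h3 θ
    obtain ⟨r2, p2, a2, b2⟩ := h3 (s θ)
    have c1 := h2 θ
    have c2 := h2 (s θ)
    refine ang (mul_pos p1 p2) ?_ ?_ (by linarith [c1.1, c2.1, pi_pos]) (by linarith [c1.2, c2.2, pi_pos])
    · rw [cos_add_pi]
      linear_combination r1 * a2 + a * a1 + b * b1 + cos θ * h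
    · rw [sin_add_pi]
      linear_combination r1 * b2 + c * a1 - a * b1 + sin θ * h
  refine ⟨s, ?_, h4, h2, h3⟩
  rcases h1.strictMono_of_inj (fun x y e => by
    have := congrArg s e
    rw [h4, h4] at this
    linarith) with h5 | h5
  · exact h5
  · have := h5 pi_pos
    linarith [(h2 0).2, (h2 π).1]

theorem triple {ρ : ℝ} (h1 : π < ρ) (h2 : ρ < 2 * π) : ∃ s1 s2 s3 : ℝ → ℝ,
    (StrictMono s1 ∧ ∀ θ, s1 (s1 θ) = θ + π) ∧ (StrictMono s2 ∧ ∀ θ, s2 (s2 θ) = θ + π) ∧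
    (StrictMono s3 ∧ ∀ θ, s3 (s3 θ) = θ + π) ∧ ∀ θ, s1 (s2 (s3 θ)) = θ + ρ := by
  have hS : sin ρ < 0 := by
    have := sin_pos_of_pos_of_lt_pi (x := ρ - π) (by linarith) (by linarith)
    rw [sin_sub_pi] at this
    linarith
  have e := cos_sq_add_sin_sq ρ
  set S := sin ρ with hSd
  set C := cos ρ with hCd
  obtain ⟨m, l, m0, l0, ml, hD⟩ : ∃ m l : ℝ, 0 < m ∧ 0 < l ∧ m * l = 1 ∧
      -S * (m - l) = 2 + C ^ 2 := by
    set D := (2 + C ^ 2) / (-S) with hD
    have D0 : 0 < D := div_pos (by positivity) (by linarith)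
    have q := Real.sq_sqrt (show 0 ≤ D ^ 2 + 4 by positivity)
    have q0 := Real.sqrt_nonneg (D ^ 2 + 4)
    refine ⟨(D + √(D ^ 2 + 4)) / 2, (-D + √(D ^ 2 + 4)) / 2, by positivity, ?_,
      by linear_combination q / 4, ?_⟩
    · have : D < √(D ^ 2 + 4) := Real.lt_sqrt_of_sq_lt (by linarith)
      linarith
    · have : -S * D = 2 + C ^ 2 := by rw [hD]; exact mul_div_cancel₀ _ (by linarith)
      linear_combination this
  obtain ⟨s1, a1, a2, a3, a4⟩ := lift2 (a := C) (b := -(1 + C ^ 2) * l) (c := m) m0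
    (by linear_combination (-(1 + C ^ 2)) * ml)
  obtain ⟨s3, c1, c2, c3, c4⟩ := lift2 (a := 0) (b := -l) (c := m) m0
    (by linear_combination (-1) * ml)
  have hd : -(-C * S * m - (1 + C ^ 2) * C) = -C + C * S * l := by
    linear_combination (-C) * hD
  obtain ⟨s2, b1, b2, b3, b4⟩ := lift2 (a := -C * S * m - (1 + C ^ 2) * C)
    (b := -C ^ 2 * l + (1 + C ^ 2) * S * l ^ 2) (c := -S * m ^ 2 - C ^ 2 * m)
    (by
      have : -S * m ^ 2 - C ^ 2 * m = m * (2 + -S * l) := by linear_combination m * hD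
      rw [this]
      have : 0 < -S * l := mul_pos (by linarith) l0
      positivity)
    (by
      have k : (-C * S * m - (1 + C ^ 2) * C) * (-C + C * S * l) -
          (-C ^ 2 * l + (1 + C ^ 2) * S * l ^ 2) * (-S * m ^ 2 - C ^ 2 * m) = 1 := by
        have l' : l = m⁻¹ := eq_inv_of_mul_eq_one_right ml
        rw [l']
        field_simp
        linear_combination m * e
      rw [← hd] at k
      linear_combination -k)
  refine ⟨s1, s2, s3, ⟨a1, a2⟩, ⟨b1, b2⟩, ⟨c1, c2⟩, fun θ => ?_⟩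
  obtain ⟨r3, p3, x3, y3⟩ := c4 θ
  obtain ⟨r2, p2, x2, y2⟩ := b4 (s3 θ)
  obtain ⟨r1, p1, x1, y1⟩ := a4 (s2 (s3 θ))
  have d3 := c3 θ
  have d2 := b3 (s3 θ)
  have d1 := a3 (s2 (s3 θ))
  have y2' : r2 * sin (s2 (s3 θ)) =
      (-S * m ^ 2 - C ^ 2 * m) * cos (s3 θ) + (-C + C * S * l) * sin (s3 θ) := by
    rw [y2, ← hd]; ring
  have l' : l = m⁻¹ := eq_inv_of_mul_eq_one_right ml
  refine ang (mul_pos (mul_pos p1 p2) p3) ?_ ?_ (by linarith [d1.1, d2.1, d3.1])
    (by linarith [d1.2, d2.2, d3.2])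
  · rw [cos_add, ← hCd, ← hSd]
    have : r1 * r2 * r3 * cos (s1 (s2 (s3 θ))) =
        C * ((-C * S * m - (1 + C ^ 2) * C) * (-l * sin θ) +
          (-C ^ 2 * l + (1 + C ^ 2) * S * l ^ 2) * (m * cos θ)) +
        -(1 + C ^ 2) * l * ((-S * m ^ 2 - C ^ 2 * m) * (-l * sin θ) +
          (-C + C * S * l) * (m * cos θ)) := by
      linear_combination r2 * r3 * x1 + C * r3 * x2 + -(1 + C ^ 2) * l * r3 * y2' +
        (C * (-C * S * m - (1 + C ^ 2) * C) + -(1 + C ^ 2) * l * (-S * m ^ 2 - C ^ 2 * m)) * x3 +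
        (C * (-C ^ 2 * l + (1 + C ^ 2) * S * l ^ 2) + -(1 + C ^ 2) * l * (-C + C * S * l)) * y3
    rw [this, l']
    field_simp
    ring
  · rw [sin_add, ← hCd, ← hSd]
    have : r1 * r2 * r3 * sin (s1 (s2 (s3 θ))) =
        m * ((-C * S * m - (1 + C ^ 2) * C) * (-l * sin θ) +
          (-C ^ 2 * l + (1 + C ^ 2) * S * l ^ 2) * (m * cos θ)) -
        C * ((-S * m ^ 2 - C ^ 2 * m) * (-l * sin θ) +
          (-C + C * S * l) * (m * cos θ)) := by
      linear_combination r2 * r3 * y1 + m * r3 * x2 - C * r3 * y2' +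
        (m * (-C * S * m - (1 + C ^ 2) * C) - C * (-S * m ^ 2 - C ^ 2 * m)) * x3 +
        (m * (-C ^ 2 * l + (1 + C ^ 2) * S * l ^ 2) - C * (-C + C * S * l)) * y3
    rw [this, l']
    field_simp
    ring

theorem triple2 {τ ρ : ℝ} (h0 : τ ≠ 0) (h1 : 1 < ρ / τ) (h2 : ρ / τ < 2) :
    ∃ s1 s2 s3 : ℝ → ℝ,
    (StrictMono s1 ∧ ∀ t, s1 (s1 t) = t + τ) ∧ (StrictMono s2 ∧ ∀ t, s2 (s2 t) = t + τ) ∧
    (StrictMono s3 ∧ ∀ t, s3 (s3 t) = t + τ) ∧ ∀ t, s1 (s2 (s3 t)) = t + ρ := by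
  obtain ⟨s1, s2, s3, a1, a2, a3, a4⟩ := triple (ρ := π * (ρ / τ)) (by nlinarith [pi_pos])
    (by nlinarith [pi_pos])
  have hπ := pi_pos.ne'
  have e : ∀ x : ℝ, π / τ * (τ / π * x) = x := fun x => by field_simp
  have key : ∀ s : ℝ → ℝ, (StrictMono s ∧ ∀ θ, s (s θ) = θ + π) →
      (StrictMono (fun t => τ / π * s (π / τ * t)) ∧
        ∀ t, τ / π * s (π / τ * (τ / π * s (π / τ * t))) = t + τ) := by
    intro s hs
    refine ⟨fun x y hxy => ?_, fun t => by rw [e, hs.2]; field_simp⟩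
    rcases lt_or_gt_of_ne h0 with h | h
    · exact mul_lt_mul_of_neg_left
        (hs.1 (mul_lt_mul_of_neg_left hxy (div_neg_of_pos_of_neg pi_pos h)))
        (div_neg_of_neg_of_pos h pi_pos)
    · exact mul_lt_mul_of_pos_left
        (hs.1 (mul_lt_mul_of_pos_left hxy (div_pos pi_pos h))) (div_pos h pi_pos)
  refine ⟨_, _, _, key s1 a1, key s2 a2, key s3 a3, fun t => ?_⟩
  simp only [e, a4]
  field_simp

abbrev Om := ℤ ×ₗ ℝ
abbrev G := Om ≃o Om

noncomputable def blk (b : ℤ) (f : ℤ → ℝ → ℝ) (hm : ∀ k, StrictMono (f k))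
    (hs : ∀ k, Function.Surjective (f k)) : G :=
  StrictMono.orderIsoOfSurjective
    (fun w => toLex ((ofLex w).1 + b, f (ofLex w).1 (ofLex w).2))
    (by
      intro w w' h
      rw [Prod.Lex.lt_iff] at h ⊢
      simp only [ofLex_toLex]
      rcases h with h | ⟨h, h'⟩
      · left; omega
      · right
        rw [h]
        exact ⟨rfl, hm _ h'⟩)
    (by
      intro w
      obtain ⟨t, ht⟩ := hs ((ofLex w).1 - b) (ofLex w).2
      exact ⟨toLex ((ofLex w).1 - b, t), by simp [ht]⟩)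

theorem blk_apply (b : ℤ) (f : ℤ → ℝ → ℝ) (hm : ∀ k, StrictMono (f k))
    (hs : ∀ k, Function.Surjective (f k)) (k : ℤ) (t : ℝ) :
    blk b f hm hs (toLex (k, t)) = toLex (k + b, f k t) := rfl

theorem G_ext {g g' : G} (h : ∀ k t, g (toLex (k, t)) = g' (toLex (k, t))) : g = g' :=
  RelIso.ext fun w => h (ofLex w).1 (ofLex w).2

def Cone {H : Type} [Group H] (P : Set H) : Prop :=
  (∀ a ∈ P, ∀ b ∈ P, a * b ∈ P) ∧ (1 : H) ∉ P ∧ (∀ a : H, a ≠ 1 → (a ∈ P ↔ a⁻¹ ∉ P))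

theorem exists_cone0 : ∃ P : Set G, Cone P := by
  set lt : Om → Om → Prop := WellOrderingRel with hlt
  have tri : ∀ x y, lt x y ∨ x = y ∨ lt y x := fun x y => trichotomous_of WellOrderingRel x y
  refine ⟨{g | ∃ p, p < g p ∧ ∀ q, lt q p → g q = q}, ?_, ?_, ?_⟩
  · rintro g ⟨p, g1, g2⟩ h ⟨p', h1, h2⟩
    have tr : ∀ x y z, lt x y → lt y z → lt x z := fun x y z => trans_of WellOrderingRel
    rcases tri p p' with c | c | c
    · exact ⟨p, by rw [RelIso.mul_apply, h2 p c]; exact g1,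
        fun q hq => by rw [RelIso.mul_apply, h2 q (tr _ _ _ hq c), g2 q hq]⟩
    · subst c
      exact ⟨p, by rw [RelIso.mul_apply]; exact g1.trans (OrderIso.strictMono g h1),
        fun q hq => by rw [RelIso.mul_apply, h2 q hq, g2 q hq]⟩
    · refine ⟨p', ?_, fun q hq => by rw [RelIso.mul_apply, h2 q hq, g2 q (tr _ _ _ hq c)]⟩
      rw [RelIso.mul_apply]
      have := OrderIso.strictMono g h1
      rwa [g2 p' c] at this
  · rintro ⟨p, h, _⟩
    exact lt_irrefl _ h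
  · intro g hg
    have fixinv : ∀ (g : G) q, g q = q → g⁻¹ q = q := fun g q h => by
      conv_lhs => rw [← h]
      exact RelIso.inv_apply_self g q
    constructor
    · rintro ⟨p, g1, g2⟩ ⟨p', h1, h2⟩
      rcases tri p p' with c | c | c
      · have := fixinv _ _ (h2 p c)
        rw [inv_inv] at this
        exact g1.ne' this
      · subst c
        have := OrderIso.strictMono g h1
        rw [RelIso.apply_inv_self] at this
        exact lt_asymm this g1
      · exact h1.ne' (fixinv _ _ (g2 p' c))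
    · intro hn
      have hne : {p | g p ≠ p}.Nonempty := by
        by_contra hc
        rw [Set.not_nonempty_iff_eq_empty] at hc
        apply hg
        refine RelIso.ext fun w => ?_
        by_contra hw
        exact (Set.eq_empty_iff_forall_notMem.mp hc) w hw
      obtain ⟨p, hp, hmin⟩ := (IsWellFounded.wf (r := (WellOrderingRel : Om → Om → Prop))).has_min _ hne
      have hfix : ∀ q, lt q p → g q = q := fun q hq => by
        by_contra hc
        exact hmin q hc hq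
      rcases lt_or_gt_of_ne hp with c | c
      · exfalso
        apply hn
        refine ⟨p, ?_, fun q hq => fixinv _ _ (hfix q hq)⟩
        have := OrderIso.strictMono g⁻¹ c
        rwa [RelIso.inv_apply_self] at this
      · exact ⟨p, c, hfix⟩

theorem exists_cone (w : Om) : ∃ P : Set G, Cone P ∧
    ∀ g : G, (w < g w → g ∈ P) ∧ (g w < w → g ∉ P) := by
  obtain ⟨P, h1, h2, h3⟩ := exists_cone0
  refine ⟨{g | w < g w ∨ (g w = w ∧ g ∈ P)}, ⟨?_, ?_, ?_⟩, fun g => ⟨Or.inl, ?_⟩⟩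
  · rintro g (a | a) h (b | b)
    · left; rw [RelIso.mul_apply]; exact a.trans (OrderIso.strictMono g b)
    · left; rw [RelIso.mul_apply, b.1]; exact a
    · left
      rw [RelIso.mul_apply]
      have := OrderIso.strictMono g b
      rwa [a.1] at this
    · right; exact ⟨by rw [RelIso.mul_apply, b.1, a.1], h1 _ a.2 _ b.2⟩
  · rintro (a | a)
    · exact lt_irrefl _ a
    · exact h2 a.2
  · intro g hg
    simp only [Set.mem_ofPred_eq]
    have e1 : w < g⁻¹ w ↔ g w < w := by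
      rw [← OrderIso.lt_iff_lt g, RelIso.apply_inv_self]
    have e2 : g⁻¹ w = w ↔ g w = w := by
      rw [← (OrderIso.injective g).eq_iff, RelIso.apply_inv_self, eq_comm]
    rw [e1, e2, h3 g hg]
    rcases lt_trichotomy w (g w) with c | c | c
    · simp [c, c.ne', c.not_gt]
    · simp [← c]
    · simp [c, c.ne, c.not_gt]
  · rintro a (b | b)
    · exact lt_asymm a b
    · exact a.ne b.1

@[ext]
structure Hq where
  a : ℚ
  b : ℚ
  c : ℚ

instance : Mul Hq := ⟨fun x y => ⟨x.a + y.a, x.b + y.b, x.c + y.c + x.a * y.b⟩⟩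
instance : One Hq := ⟨⟨0, 0, 0⟩⟩
instance : Inv Hq := ⟨fun x => ⟨-x.a, -x.b, -x.c + x.a * x.b⟩⟩

@[simp] theorem mul_a (x y : Hq) : (x * y).a = x.a + y.a := rfl
@[simp] theorem mul_b (x y : Hq) : (x * y).b = x.b + y.b := rfl
@[simp] theorem mul_c (x y : Hq) : (x * y).c = x.c + y.c + x.a * y.b := rfl
@[simp] theorem one_a : (1 : Hq).a = 0 := rfl
@[simp] theorem one_b : (1 : Hq).b = 0 := rfl
@[simp] theorem one_c : (1 : Hq).c = 0 := rfl
@[simp] theorem inv_a (x : Hq) : x⁻¹.a = -x.a := rfl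
@[simp] theorem inv_b (x : Hq) : x⁻¹.b = -x.b := rfl
@[simp] theorem inv_c (x : Hq) : x⁻¹.c = -x.c + x.a * x.b := rfl

instance : Group Hq := Group.ofLeftAxioms
  (fun x y z => by ext <;> simp <;> ring) (fun x => by ext <;> simp)
  (fun x => by ext <;> simp)

theorem pow_eq (x : Hq) (n : ℕ) :
    x ^ n = ⟨n * x.a, n * x.b, n * x.c + n * (n - 1) / 2 * x.a * x.b⟩ := by
  induction n with
  | zero => ext <;> simp
  | succ n ih => rw [pow_succ, ih]; ext <;> simp <;> ring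

theorem Hq_nil : Group.IsNilpotent Hq := by
  let f : Hq →* Multiplicative (ℚ × ℚ) :=
    { toFun := fun x => Multiplicative.ofAdd (x.a, x.b)
      map_one' := rfl
      map_mul' := fun x y => rfl }
  apply Subgroup.isNilpotent_of_ker_le_center f
  intro x hx
  have h := Multiplicative.ofAdd.injective (show Multiplicative.ofAdd (x.a, x.b) =
    Multiplicative.ofAdd (0, 0) from hx)
  simp only [Prod.mk.injEq] at h
  rw [Subgroup.mem_center_iff]
  intro y
  ext <;> simp [h.1, h.2, add_comm]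

theorem Hq_div (h : Hq) (n : ℕ) (hn : 0 < n) : ∃ x : Hq, x ^ n = h := by
  have : (n : ℚ) ≠ 0 := by exact_mod_cast hn.ne'
  refine ⟨⟨h.a / n, h.b / n, (h.c - n * (n - 1) / 2 * (h.a / n) * (h.b / n)) / n⟩, ?_⟩
  rw [pow_eq]
  ext <;> simp only <;> field_simp
  ring

def Hz : Subgroup Hq where
  carrier := {x | (∃ a : ℤ, x.a = a) ∧ (∃ b : ℤ, x.b = b) ∧ ∃ c : ℤ, x.c = c}
  one_mem' := ⟨⟨0, by simp⟩, ⟨0, by simp⟩, 0, by simp⟩
  mul_mem' := by
    rintro x y ⟨⟨a, ha⟩, ⟨b, hb⟩, c, hc⟩ ⟨⟨a', ha'⟩, ⟨b', hb'⟩, c', hc'⟩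
    exact ⟨⟨a + a', by simp [ha, ha']⟩, ⟨b + b', by simp [hb, hb']⟩,
      c + c' + a * b', by simp [hc, hc', ha, hb']⟩
  inv_mem' := by
    rintro x ⟨⟨a, ha⟩, ⟨b, hb⟩, c, hc⟩
    exact ⟨⟨-a, by simp [ha]⟩, ⟨-b, by simp [hb]⟩, -c + a * b, by simp [hc, ha, hb]⟩

theorem pow_mem_Hz (h : Hq) : ∃ n : ℕ, 0 < n ∧ h ^ n ∈ Hz := by
  refine ⟨2 * h.a.den * h.b.den * h.c.den, by positivity, ?_⟩
  rw [pow_eq]
  have ea := Rat.den_mul_eq_num h.a
  have eb := Rat.den_mul_eq_num h.b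
  have ec := Rat.den_mul_eq_num h.c
  refine ⟨⟨2 * h.a.num * h.b.den * h.c.den, ?_⟩, ⟨2 * h.a.den * h.b.num * h.c.den, ?_⟩,
    2 * h.a.den * h.b.den * h.c.num +
      (2 * h.a.den * h.b.den * h.c.den - 1) * h.c.den * h.a.num * h.b.num, ?_⟩ <;>
  · push_cast
    simp only [← ea, ← eb, ← ec]
    ring

noncomputable def act (x : Hq) : G :=
  blk x.b.num (fun k t => t + (x.c + x.a * (√2 + k))) (fun _ _ _ h => by simpa using h)
    (fun k t => ⟨t - (x.c + x.a * (√2 + k)), by simp⟩)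

theorem act_apply (x : Hq) (k : ℤ) (t : ℝ) :
    act x (toLex (k, t)) = toLex (k + x.b.num, t + (x.c + x.a * (√2 + k))) := rfl

noncomputable def rho : Hz →* G where
  toFun x := act x
  map_one' := G_ext fun k t => by simp [act_apply]
  map_mul' := by
    rintro ⟨x, ⟨a, ha⟩, ⟨b, hb⟩, c, hc⟩ ⟨y, ⟨a', ha'⟩, ⟨b', hb'⟩, c', hc'⟩
    refine G_ext fun k t => ?_
    simp only [RelIso.mul_apply, act_apply, Subgroup.coe_mul, mul_a, mul_b, mul_c, hb, hb',
      ← Int.cast_add, Rat.num_intCast]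
    congr 2
    · ring
    · push_cast; ring

theorem irr {a c : ℚ} (h : (c : ℝ) + a * √2 = 0) : a = 0 ∧ c = 0 := by
  by_cases ha : a = 0
  · rw [ha] at h
    exact ⟨ha, by exact_mod_cast (by simpa using h : (c : ℝ) = 0)⟩
  · exact absurd h (((irrational_sqrt_two.ratCast_mul ha).ratCast_add c).ne_zero)

def Q : Set Hq := {x | 0 < x.b ∨ (x.b = 0 ∧ (0 : ℝ) < x.c + x.a * √2)}

theorem Q_cone : Cone Q := by
  refine ⟨?_, ?_, ?_⟩
  · rintro x (h | h) y (h' | h')
    · left; simp only [mul_b]; linarith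
    · left; simp only [mul_b]; linarith [h'.1]
    · left; simp only [mul_b]; linarith [h.1]
    · right
      simp only [mul_a, mul_b, mul_c, h.1, h'.1]
      push_cast
      exact ⟨by simp, by linarith [h.2, h'.2]⟩
  · simp [Q]
  · intro x hx
    simp only [Q, Set.mem_ofPred_eq, inv_a, inv_b, inv_c]
    rcases lt_trichotomy x.b 0 with h | h | h
    · simp [h, h.ne, h.not_gt]
    · have : (x.c : ℝ) + x.a * √2 ≠ 0 := fun h0 =>
        hx (Hq.ext (irr h0).1 h (irr h0).2)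
      simp only [h, lt_irrefl, true_and, false_or, neg_zero, mul_zero, add_zero, not_lt]
      push_cast
      constructor
      · intro h1; linarith
      · intro h1; exact lt_of_le_of_ne (by linarith) this.symm
    · simp [h, h.ne', h.le]

theorem rho_lt (x : Hz) : toLex ((0 : ℤ), (0 : ℝ)) < rho x (toLex (0, 0)) ↔ (x : Hq) ∈ Q := by
  show toLex ((0 : ℤ), (0 : ℝ)) < act x (toLex (0, 0)) ↔ _
  rw [act_apply, Prod.Lex.toLex_lt_toLex]
  simp [Q, eq_comm (a := (0 : ℤ))]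

theorem rho_inj : Function.Injective rho := by
  rw [injective_iff_map_eq_one]
  intro x hx
  by_contra hne
  have hne' : (x : Hq) ≠ 1 := fun h => hne (Subtype.ext h)
  have a1 := rho_lt x
  have a2 := rho_lt x⁻¹
  rw [map_inv, hx, inv_one] at a2
  rw [hx] at a1
  have := Q_cone.2.2 _ hne'
  rw [← a1, ← Subgroup.coe_inv, ← a2] at this
  simp at this

theorem cone_sq {H : Type} [Group H] {R : Set H} (hR : Cone R) {s : H} (h : s * s ∈ R) :
    s ∈ R := by
  have h1 : s ≠ 1 := fun e => hR.2.1 (by rwa [e, mul_one] at h)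
  by_contra hc
  have h2 : s⁻¹ ∈ R := by
    by_contra h3
    exact hc ((hR.2.2 s h1).mpr h3)
  have := hR.1 _ h _ (hR.1 _ h2 _ h2)
  simp only [mul_assoc, mul_inv_cancel_left, mul_inv_cancel] at this
  exact hR.2.1 this

def TT : Hz := ⟨⟨6, 0, 0⟩, ⟨6, by norm_num⟩, ⟨0, by norm_num⟩, 0, by norm_num⟩
def MM : Hz := ⟨⟨9, 0, -1⟩, ⟨9, by norm_num⟩, ⟨0, by norm_num⟩, -1, by norm_num⟩

theorem coupling {R : Set G} (hR : Cone R) (h : rho TT ∈ R) : rho MM ∈ R := by
  have s2 : √2 * √2 = 2 := Real.mul_self_sqrt (by norm_num)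
  have s0 : 0 < √2 := by positivity
  have l1 : 7 / 5 < √2 := by nlinarith
  have l2 : √2 < 3 / 2 := by nlinarith
  have key : ∀ k : ℤ, ∃ s1 s2 s3 : ℝ → ℝ,
      (StrictMono s1 ∧ ∀ t, s1 (s1 t) = t + 6 * (√2 + k)) ∧
      (StrictMono s2 ∧ ∀ t, s2 (s2 t) = t + 6 * (√2 + k)) ∧
      (StrictMono s3 ∧ ∀ t, s3 (s3 t) = t + 6 * (√2 + k)) ∧
      ∀ t, s1 (s2 (s3 t)) = t + (-1 + 9 * (√2 + k)) := by
    intro k
    by_cases hk : -1 ≤ k
    · have : (-1 : ℝ) ≤ k := by exact_mod_cast hk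
      have p : 0 < 6 * (√2 + k) := by linarith
      exact triple2 p.ne' (by rw [lt_div_iff₀ p]; linarith) (by rw [div_lt_iff₀ p]; linarith)
    · have : (k : ℝ) ≤ -2 := by exact_mod_cast (show k ≤ -2 by omega)
      have p : 6 * (√2 + k) < 0 := by linarith
      exact triple2 p.ne (by rw [lt_div_iff_of_neg p]; linarith)
        (by rw [div_lt_iff_of_neg p]; linarith)
  choose s1 s2 s3 a1 a2 a3 a4 using key
  have mk : ∀ s : ℤ → ℝ → ℝ, (∀ k, StrictMono (s k) ∧ ∀ t, s k (s k t) = t + 6 * (√2 + k)) →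
      ∃ g ∈ R, ∀ k t, g (toLex (k, t)) = toLex (k, s k t) := by
    intro s hs
    refine ⟨blk 0 s (fun k => (hs k).1)
      (fun k t => ⟨s k (t - 6 * (√2 + k)), by rw [(hs k).2]; ring⟩), cone_sq hR ?_,
      fun k t => by rw [blk_apply, add_zero]⟩
    convert h using 1
    refine G_ext fun k t => ?_
    show _ = act TT _
    simp [RelIso.mul_apply, blk_apply, act_apply, TT, (hs k).2]
  obtain ⟨g1, b1, c1⟩ := mk s1 a1
  obtain ⟨g2, b2, c2⟩ := mk s2 a2
  obtain ⟨g3, b3, c3⟩ := mk s3 a3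
  convert hR.1 _ b1 _ (hR.1 _ b2 _ b3) using 1
  refine G_ext fun k t => ?_
  show act MM _ = _
  simp [RelIso.mul_apply, c1, c2, c3, a4, act_apply, MM]

end Pool.Agent.H.MP_1e7c77_al
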